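import Pool.Agent.H98.EX.WTargets

/-!
Row HFR of the board exa_modules (MP_65efe8_pr): the recursion of the negative moments.
-/

set_option autoImplicit false

open MeasureTheory ProbabilityTheory Filter Topology
open Pool.Agent.H95 Pool.Agent.H95.Cop
open Pool.Agent.H55.CG (Mo)

namespace Pool.Agent.H40.EX

open Pool.Agent.H98.EX

/-- tangents of `v ^ (-q)` -/
theorem hfr_tangent (x y q : ℝ) (hx : 0 < x) (hy : 0 < y) (hq : 0 < q) :
    x ^ (-q) - q * x ^ (-(q + 1)) * (y - x) ≤ y ^ (-q) := by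
  have h1 : y ^ (-q) = x ^ (-q) * (y / x) ^ (-q) := by
    rw [← Real.mul_rpow hx.le (by positivity), mul_div_cancel₀ _ hx.ne']
  have h2 : x ^ (-(q + 1)) = x ^ (-q) / x := by
    rw [neg_add', Real.rpow_sub_one hx.ne']
  have h3 : 1 - q * (y / x - 1) ≤ (y / x) ^ (-q) := by
    rw [Real.rpow_def_of_pos (by positivity)]
    have h4 := Real.add_one_le_exp (Real.log (y / x) * -q)
    have h5 := Real.log_le_sub_one_of_pos (div_pos hy hx)
    nlinarith
  have h6 : 0 ≤ x ^ (-q) := Real.rpow_nonneg hx.le _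
  rw [h1, h2]
  have h7 := mul_le_mul_of_nonneg_left h3 h6
  refine le_trans (le_of_eq ?_) h7
  field_simp

theorem hfr_up (x q : ℝ) (hx : 0 < x) (hq : 0 < q) :
    x ^ (-q) - (1 + x) ^ (-q) ≤ q * x ^ (-(q + 1)) := by
  have h := hfr_tangent x (1 + x) q hx (by linarith) hq
  have e : 1 + x - x = 1 := by ring
  rw [e, mul_one] at h
  linarith

theorem hfr_lo (x q : ℝ) (hx : 0 < x) (hq : 0 < q) :
    q * (1 + x) ^ (-(q + 1)) ≤ x ^ (-q) - (1 + x) ^ (-q) := by
  have h := hfr_tangent (1 + x) x q (by linarith) hx hq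
  have e : x - (1 + x) = -1 := by ring
  rw [e] at h
  linarith

/-- the sums after the first step -/
theorem hfr_VR (n : ℕ) (y : ℕ → ℝ) :
    VR (n + 1) y = Real.exp (-y 0) * (1 + VR n (shift 1 y)) := by
  have hH : ∀ i : ℕ, H y 0 (i + 1) = y 0 + H (shift 1 y) 0 i := by
    intro i
    unfold H shift
    rw [Finset.sum_Ico_eq_sum_range, Finset.sum_Ico_eq_sum_range, Nat.sub_zero, Nat.sub_zero,
      Finset.sum_range_succ']
    simp only [Nat.zero_add]
    ring
  unfold VR
  have h1 : ∀ i ∈ Finset.range (n + 1), Real.exp (-H y 0 (i + 1)) =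
      Real.exp (-y 0) * Real.exp (-H (shift 1 y) 0 i) := by
    intro i _
    rw [hH, ← Real.exp_add]
    congr 1
    ring
  rw [Finset.sum_congr rfl h1, ← Finset.mul_sum, Finset.sum_range_succ']
  congr 1
  have h2 : H (shift 1 y) 0 0 = 0 := by simp [H]
  rw [h2, neg_zero, Real.exp_zero]
  ring

theorem hfr_VR_nonneg (n : ℕ) (y : ℕ → ℝ) : 0 ≤ VR n y :=
  Finset.sum_nonneg fun _ _ => (Real.exp_pos _).le

theorem hfr_meas (n : ℕ) : Measurable (VR n) := by
  unfold VR H
  fun_prop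

theorem hfr_meas_pow (n : ℕ) (p : ℝ) : Measurable (fun y => (1 + VR n y) ^ (-p)) :=
  (measurable_const.add (hfr_meas n)).pow_const _

theorem hfr_int (ϱ : Measure ℝ) [IsProbabilityMeasure ϱ] (n : ℕ) (p : ℝ) (hp : 0 ≤ p) :
    Integrable (fun y => (1 + VR n y) ^ (-p)) (iid ϱ) := by
  refine Integrable.mono' (integrable_const (1 : ℝ)) (hfr_meas_pow n p).aestronglyMeasurable
    (Eventually.of_forall fun y => ?_)
  have h1 := hfr_VR_nonneg n y
  rw [Real.norm_eq_abs, abs_of_nonneg (Real.rpow_nonneg (by linarith) _)]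
  exact Real.rpow_le_one_of_one_le_of_nonpos (by linarith) (by linarith)

/-- the first step is independent of the rest -/
theorem hfr_step (ϱ : Measure ℝ) [IsProbabilityMeasure ϱ]
    (hϱ : ∀ t : ℝ, Integrable (fun z => Real.exp (t * z)) ϱ) (n : ℕ) (p : ℝ) (hp : 0 ≤ p) :
    Integrable (fun y => VR (n + 1) y ^ (-p)) (iid ϱ) ∧
      ∫ y, VR (n + 1) y ^ (-p) ∂(iid ϱ) = Mo ϱ p * hh ϱ n p := by
  have hmp := measurePreserving_eval_infinitePi (fun _ : ℕ => ϱ) 0
  have hI0 : Integrable (fun y : ℕ → ℝ => Real.exp (p * y 0)) (iid ϱ) :=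
    hmp.integrable_comp_of_integrable (hϱ p)
  have heq : ∀ y : ℕ → ℝ, VR (n + 1) y ^ (-p) =
      Real.exp (p * y 0) * (1 + VR n (shift 1 y)) ^ (-p) := by
    intro y
    have h1 := hfr_VR_nonneg n (shift 1 y)
    rw [hfr_VR, Real.mul_rpow (Real.exp_pos _).le (by linarith), ← Real.exp_mul]
    congr 2
    ring
  constructor
  · refine Integrable.mono' hI0 (((hfr_meas (n + 1)).pow_const _).aestronglyMeasurable)
      (Eventually.of_forall fun y => ?_)
    have h1 := hfr_VR_nonneg n (shift 1 y)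
    rw [heq, Real.norm_eq_abs, abs_mul, abs_of_pos (Real.exp_pos _),
      abs_of_nonneg (Real.rpow_nonneg (by linarith) _)]
    exact mul_le_of_le_one_right (Real.exp_pos _).le
      (Real.rpow_le_one_of_one_le_of_nonpos (by linarith) (by linarith))
  · have h2 : ∫ y, VR (n + 1) y ^ (-p) ∂(iid ϱ) =
        ∫ y, (fun y : ℕ → ℝ => Real.exp (p * y 0)) y *
          (fun y : ℕ → ℝ => (1 + VR n y) ^ (-p)) (shift 1 y) ∂(iid ϱ) :=
      integral_congr_ae (Eventually.of_forall heq)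
    rw [h2, integral_mul_shift ϱ (t := 1) (f := fun y : ℕ → ℝ => Real.exp (p * y 0))
      (g := fun y : ℕ → ℝ => (1 + VR n y) ^ (-p)) (by
        intro x x' hx
        show Real.exp (p * x 0) = Real.exp (p * x' 0)
        rw [hx 0 (by norm_num)]) hI0.aestronglyMeasurable
      (hfr_meas_pow n p).aestronglyMeasurable]
    have h3 := integral_map (φ := Function.eval 0) (f := fun z : ℝ => Real.exp (p * z))
      hmp.measurable.aemeasurable (by rw [hmp.map_eq]; exact (hϱ p).aestronglyMeasurable)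
    rw [hmp.map_eq] at h3
    congr 1
    exact h3.symm

theorem pf_HFR (_hWBA : T_WBA) : T_HFR := by
  intro ϱ _ hϱ q n hq
  obtain ⟨hI1, hE1⟩ := hfr_step ϱ hϱ n q hq.le
  obtain ⟨hI2, hE2⟩ := hfr_step ϱ hϱ n (q + 1) (by linarith)
  have hJ1 := hfr_int ϱ (n + 1) q hq.le
  have hJ2 := hfr_int ϱ (n + 1) (q + 1) (by linarith)
  have hpos : ∀ y : ℕ → ℝ, 0 < VR (n + 1) y := by
    intro y
    have h1 := hfr_VR_nonneg n (shift 1 y)
    rw [hfr_VR]
    exact mul_pos (Real.exp_pos _) (by linarith)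
  have hD : ∫ y, (VR (n + 1) y ^ (-q) - (1 + VR (n + 1) y) ^ (-q)) ∂(iid ϱ) =
      Mo ϱ q * hh ϱ n q - hh ϱ (n + 1) q := by
    rw [integral_sub hI1 hJ1, hE1]
    rfl
  constructor
  · rw [← hD]
    unfold hh
    rw [← integral_const_mul]
    exact integral_mono (hJ2.const_mul q) (hI1.sub hJ1) fun y => hfr_lo _ q (hpos y) hq
  · rw [← hD, ← hE2, ← integral_const_mul]
    exact integral_mono (hI1.sub hJ1) (hI2.const_mul q) fun y => hfr_up _ q (hpos y) hq

end Pool.Agent.H40.EX
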