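import Pool.Agent.H40.EX.NM2a

/-!
# The exact constant of the copolymer slope: numerical conditions of the base (helper40)
-/

set_option autoImplicit false

namespace Pool.Agent.H40.EX

open Pool.Agent.H98.EX

theorem nm2_abs {t s y k ω : ℝ} (h1 : (1 + s) / 2 ≤ t) (h2 : t ≤ (1 + s) * (1 / 2 + y / 2))
    (hs : 0 ≤ s) (hs1 : s ≤ 1) (hy : 0 ≤ y) (hk : 0 ≤ k) (hsy : s + y ≤ ω) (hkω : k ≤ ω) :
    |t - 1 / 2 - k| ≤ ω := by
  have h3 : (1 + s) * (1 / 2 + y / 2) = 1 / 2 + s / 2 + y / 2 + s * y / 2 := by ring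
  have h4 : s * y ≤ 1 * y := mul_le_mul_of_nonneg_right hs1 hy
  rw [h3] at h2
  rw [abs_le]
  constructor <;> linarith

theorem pf_NM2 : T_NM2 := by
  intro kp ς δ0 ϑ ω R hkp hς hςk hδ hδ1 hϑ hϑ1 hω hω1
  set A := kp - ς / 4 with hA
  have hA0 : 0 < A := by rw [hA]; linarith
  set C := nm2C kp ς ϑ ω R with hC
  have had : 0 < ad ϑ ω := by unfold ad; positivity
  have hC0 : 0 ≤ C := by
    have hA0' : 0 < kp - ς / 4 := hA0
    rw [hC]
    unfold nm2C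
    positivity
  have hlog : 0 ≤ Real.log (16 / ϑ) := by
    refine Real.log_nonneg ?_
    rw [le_div_iff₀ hϑ]
    linarith
  have p1 : 0 ≤ 16 * ς := by positivity
  have p2 : 0 ≤ 64 * (ς + 1 + kp) / ω := by positivity
  have p3 : 0 ≤ 2 ^ 11 / (ω ^ 2 * ϑ) := by positivity
  have p4 : 0 ≤ 16 / ϑ := by positivity
  have p5 : 0 ≤ 136 / (ϑ * A) := by positivity
  have p6 : 0 ≤ 544 / (ϑ * kp) := by positivity
  have p7 : 0 ≤ 5 + Real.log (16 / ϑ) := by positivity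
  have p8 : 0 ≤ 1024 / (ϑ * A) := by positivity
  have p9 : 0 ≤ (1 + C) / (2 * δ0) := by positivity
  obtain ⟨K, hK⟩ : ∃ K : ℝ, K = 4 + 16 * ς + 64 * (ς + 1 + kp) / ω + 2 ^ 11 / (ω ^ 2 * ϑ) +
    16 / ϑ + 136 / (ϑ * A) + 544 / (ϑ * kp) + (5 + Real.log (16 / ϑ)) + 1024 / (ϑ * A) +
    (1 + C) / (2 * δ0) := ⟨_, rfl⟩
  have hK0 : 0 < K := by rw [hK]; linarith
  refine ⟨1 + 160 / (ϑ * A) + 640 / (ϑ * A) ^ 2 * (66 + 1280 / ϑ), (1 / K) ^ 2, ?_,
    by positivity, ?_⟩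
  · have h1 : 0 ≤ 160 / (ϑ * A) := by positivity
    have h2 : 0 ≤ 640 / (ϑ * A) ^ 2 * (66 + 1280 / ϑ) := by positivity
    linarith
  intro x hx hxK α τ hα hα1 hτ0 hτ
  obtain ⟨z, hz, hxz⟩ : ∃ z : ℝ, 0 < z ∧ x = z ^ 2 :=
    ⟨Real.sqrt x, Real.sqrt_pos.2 hx, (Real.sq_sqrt hx.le).symm⟩
  have hzK : z < 1 / K := by
    refine lt_of_pow_lt_pow_left₀ 2 (by positivity) ?_
    rw [← hxz]
    exact hxK
  have hKz : K * z ≤ 1 := by
    rw [lt_div_iff₀ hK0] at hzK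
    linarith
  have get : ∀ p : ℝ, p ≤ K → p * z ≤ 1 := fun p hp =>
    (mul_le_mul_of_nonneg_right hp hz.le).trans hKz
  have e0 : 4 * z ≤ 1 := get _ (by rw [hK]; linarith)
  have e1 : 16 * ς * z ≤ 1 := get _ (by rw [hK]; linarith)
  have e2 : 64 * (ς + 1 + kp) / ω * z ≤ 1 := get _ (by rw [hK]; linarith)
  have e3 : 2 ^ 11 / (ω ^ 2 * ϑ) * z ≤ 1 := get _ (by rw [hK]; linarith)
  have e4 : 16 / ϑ * z ≤ 1 := get _ (by rw [hK]; linarith)
  have e5 : 136 / (ϑ * A) * z ≤ 1 := get _ (by rw [hK]; linarith)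
  have e6 : 544 / (ϑ * kp) * z ≤ 1 := get _ (by rw [hK]; linarith)
  have e7 : (5 + Real.log (16 / ϑ)) * z ≤ 1 := get _ (by rw [hK]; linarith)
  have e8 : 1024 / (ϑ * A) * z ≤ 1 := get _ (by rw [hK]; linarith)
  have e9 : (1 + C) / (2 * δ0) * z ≤ 1 := get _ (by rw [hK]; linarith)
  have hz1 : z ≤ 1 / 4 := by linarith
  obtain ⟨hx1, hxz1, hxx, hxxx⟩ := nm2_z hz hz1 hxz
  have hx4 : x ^ 4 ≤ x := by
    calc x ^ 4 ≤ x ^ 1 := pow_le_pow_of_le_one hx.le (by linarith) (by norm_num)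
      _ = x := pow_one x
  have hx4z : x ^ 4 ≤ z := hx4.trans hxz1
  have f2 : 64 * (ς + 1 + kp) * z ≤ ω := by
    have : 64 * (ς + 1 + kp) / ω * z = 64 * (ς + 1 + kp) * z / ω := by ring
    rw [this, div_le_one hω] at e2
    exact e2
  have f3 : 2 ^ 11 * z ≤ ω ^ 2 * ϑ := by
    have : 2 ^ 11 / (ω ^ 2 * ϑ) * z = 2 ^ 11 * z / (ω ^ 2 * ϑ) := by ring
    rw [this, div_le_one (by positivity)] at e3
    exact e3
  have f4 : 16 * z ≤ ϑ := by
    have : 16 / ϑ * z = 16 * z / ϑ := by ring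
    rw [this, div_le_one hϑ] at e4
    exact e4
  have f5 : 136 * z ≤ ϑ * A := by
    have : 136 / (ϑ * A) * z = 136 * z / (ϑ * A) := by ring
    rw [this, div_le_one (by positivity)] at e5
    exact e5
  have f6 : 544 * z ≤ ϑ * kp := by
    have : 544 / (ϑ * kp) * z = 544 * z / (ϑ * kp) := by ring
    rw [this, div_le_one (by positivity)] at e6
    exact e6
  have f8 : 1024 * z ≤ ϑ * A := by
    have : 1024 / (ϑ * A) * z = 1024 * z / (ϑ * A) := by ring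
    rw [this, div_le_one (by positivity)] at e8
    exact e8
  have f9 : (1 + C) * z ≤ 2 * δ0 := by
    have : (1 + C) / (2 * δ0) * z = (1 + C) * z / (2 * δ0) := by ring
    rw [this, div_le_one (by positivity)] at e9
    exact e9
  have hsx : ς * x ≤ 1 / 16 := by
    have : ς * x ≤ ς * z := mul_le_mul_of_nonneg_left hxz1 hς.le
    linarith
  have hsx0 : 0 < ς * x := by positivity
  obtain ⟨ht1, ht2⟩ := nm2_te (s := ς * x) hx hx1 hα hα1 hsx0.le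
  obtain ⟨ht3, ht4⟩ := nm2_te (s := 2 * (ς * x)) hx hx1 hα hα1 (by positivity)
  obtain ⟨hk, hk'⟩ := nm2_kap hkp hς hςk hϑ hϑ1 hx hx1 hα hα1 hτ hsx
    (by rw [← hA]; linarith) (by linarith)
  obtain ⟨hn, hn0, hlogn⟩ := nm2_nx hz hxz
  set κ := kap ϑ (kp * x) (te α (ς * x)) τ (x ^ 4) with hκdef
  set κ' := kap ϑ (kp * x) (te α (2 * (ς * x))) τ (x ^ 4) with hκ'def
  obtain ⟨hκ0, i1, i2, -⟩ := nm2_inv hϑ hA0 hx hx1 hk
  have hκ'0 : 0 < κ' := lt_of_lt_of_le (by positivity) hk'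
  have hLa : La ϑ (nx0 x) ≤ 2 / z := by
    have h1 : 5 + Real.log (16 / ϑ) ≤ 1 / z := by
      rw [le_div_iff₀ hz]; exact e7
    have h2 : (2 : ℝ) / z = 1 / z + 1 / z := by ring
    unfold La
    rw [h2]
    linarith
  have hn1 : (1 : ℝ) ≤ (nx0 x : ℝ) := by
    have : (0 : ℕ) < nx0 x := by exact_mod_cast hn0
    exact_mod_cast this
  have hLa0 : 0 ≤ La ϑ (nx0 x) := by
    unfold La
    have := Real.log_nonneg hn1
    linarith
  have hsq : Real.sqrt (x ^ 4) = x ^ 2 := by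
    rw [show x ^ 4 = (x ^ 2) ^ 2 by ring, Real.sqrt_sq (by positivity)]
  have hw : 1 / (x * (nx0 x : ℝ)) ≤ 2 := by
    rw [div_le_iff₀ (by positivity)]
    linarith
  refine ⟨by linarith, ?_, ?_, ?_, ?_, hκ0, hκ'0, ?_, ?_, ?_, ?_⟩
  · -- te α (2 ς x) ≤ 5 / 8
    have h1 : x ^ 4 ≤ 1 / 16 := hx4.trans hx1
    have h2 : (1 + 2 * (ς * x)) * (1 / 2 + x ^ 4 / 2) ≤ (1 + 1 / 8) * (1 / 2 + 1 / 32) :=
      mul_le_mul (by linarith) (by linarith) (by positivity) (by norm_num)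
    linarith
  · have h2 : ς * x ≤ ς * z := mul_le_mul_of_nonneg_left hxz1 hς.le
    have h3 : kp * x ≤ kp * z := mul_le_mul_of_nonneg_left hxz1 hkp.le
    have h5 : 0 < kp * x := by positivity
    have h6 : 0 ≤ ς * z := by positivity
    have h7 : 0 ≤ kp * z := by positivity
    have h8 : 64 * (ς + 1 + kp) * z = 64 * (ς * z) + 64 * z + 64 * (kp * z) := by ring
    rw [h8] at f2
    exact nm2_abs ht1 ht2 hsx0.le (by linarith) (by positivity) h5.le (by linarith) (by linarith)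
  · linarith
  · linarith
  · rw [hsq]
    have h1 : 32 * x ^ 2 * La ϑ (nx0 x) / κ ≤ 256 / (ϑ * A) * z := by
      calc 32 * x ^ 2 * La ϑ (nx0 x) / κ = 32 * x ^ 2 * La ϑ (nx0 x) * (1 / κ) := by ring
        _ ≤ 32 * x ^ 2 * (2 / z) * (4 / (ϑ * A) * (1 / x)) :=
            mul_le_mul (mul_le_mul_of_nonneg_left hLa (by positivity)) i1 (by positivity)
              (by positivity)
        _ = 256 / (ϑ * A) * (x ^ 2 * (1 / x) * (1 / z)) := by ring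
        _ = 256 / (ϑ * A) * z := by
            congr 1
            rw [hxz]; field_simp
    have h2 : 256 / (ϑ * A) * z = 1 / 4 * (1024 / (ϑ * A) * z) := by ring
    rw [h2] at h1
    linarith
  · rw [hsq]
    have h1 : 40 * x ^ 2 / (κ * x) ≤ 160 / (ϑ * A) := by
      calc 40 * x ^ 2 / (κ * x) = 40 * x * (1 / κ) := by field_simp
        _ ≤ 40 * x * (4 / (ϑ * A) * (1 / x)) := mul_le_mul_of_nonneg_left i1 (by positivity)
        _ = 160 / (ϑ * A) := by field_simp; norm_num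
    have h2 : 0 ≤ 640 / (ϑ * A) ^ 2 * (66 + 1280 / ϑ) := by positivity
    linarith
  · rw [hsq]
    have h0 : 0 < x * (nx0 x : ℝ) := by positivity
    have h1 : 40 * x ^ 2 / (κ ^ 2 * x * (nx0 x : ℝ)) ≤
        640 / (ϑ * A) ^ 2 * (1 / (x * (nx0 x : ℝ))) := by
      calc 40 * x ^ 2 / (κ ^ 2 * x * (nx0 x : ℝ)) =
            40 * x ^ 2 * (1 / κ ^ 2) * (1 / (x * (nx0 x : ℝ))) := by field_simp
        _ ≤ 40 * x ^ 2 * (16 / (ϑ * A) ^ 2 * (1 / x ^ 2)) * (1 / (x * (nx0 x : ℝ))) := by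
            refine mul_le_mul_of_nonneg_right (mul_le_mul_of_nonneg_left i2 (by positivity)) ?_
            positivity
        _ = 640 / (ϑ * A) ^ 2 * (1 / (x * (nx0 x : ℝ))) := by
            field_simp; norm_num
    have h2 : 0 ≤ 1 + 32 * x ^ 2 * (2 * (nx0 x : ℝ) + 40 / ϑ) := by positivity
    have h3 : 1 / (x * (nx0 x : ℝ)) * (1 + 32 * x ^ 2 * (2 * (nx0 x : ℝ) + 40 / ϑ)) ≤
        66 + 1280 / ϑ := by
      have h4 : 1 / (x * (nx0 x : ℝ)) * (1 + 32 * x ^ 2 * (2 * (nx0 x : ℝ) + 40 / ϑ)) =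
          1 / (x * (nx0 x : ℝ)) + 64 * x + 1280 / ϑ * (x ^ 2 * (1 / (x * (nx0 x : ℝ)))) := by
        field_simp
        ring
      have h5 : x ^ 2 * (1 / (x * (nx0 x : ℝ))) ≤ 1 := by
        have h6 : x ^ 2 * (1 / (x * (nx0 x : ℝ))) ≤ x ^ 2 * 2 :=
          mul_le_mul_of_nonneg_left hw (by positivity)
        linarith
      have h7 : 1280 / ϑ * (x ^ 2 * (1 / (x * (nx0 x : ℝ)))) ≤ 1280 / ϑ * 1 :=
        mul_le_mul_of_nonneg_left h5 (by positivity)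
      rw [h4]
      linarith
    calc 40 * x ^ 2 / (κ ^ 2 * x * (nx0 x : ℝ)) *
          (1 + 32 * x ^ 2 * (2 * (nx0 x : ℝ) + 40 / ϑ)) ≤
          640 / (ϑ * A) ^ 2 * (1 / (x * (nx0 x : ℝ))) *
            (1 + 32 * x ^ 2 * (2 * (nx0 x : ℝ) + 40 / ϑ)) := mul_le_mul_of_nonneg_right h1 h2
      _ = 640 / (ϑ * A) ^ 2 * (1 / (x * (nx0 x : ℝ)) *
            (1 + 32 * x ^ 2 * (2 * (nx0 x : ℝ) + 40 / ϑ))) := by ring
      _ ≤ 640 / (ϑ * A) ^ 2 * (66 + 1280 / ϑ) := mul_le_mul_of_nonneg_left h3 (by positivity)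
      _ ≤ _ := by
          have : 0 ≤ 160 / (ϑ * A) := by positivity
          linarith
  · intro Qv _ hQ1
    have hρ : ς * x / 2 ≤ ς * x / (1 + α) := by
      have h1 : x ^ 4 ≤ 1 / 16 := hx4.trans hx1
      exact div_le_div_of_nonneg_left hsx0.le (by linarith) (by linarith)
    have h1 := nm2_gb (R := R) hkp hς hςk hϑ hω hz hz1 hxz hδ hδ1 hk hk' hρ hn hn0 hLa hQ1
    refine h1.trans ?_
    rw [← hC]
    have h2 : (2 - x ^ 4) * (1 / 2 - δ0) ≤ (1 + α) * (1 / 2 - δ0) :=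
      mul_le_mul_of_nonneg_right (by linarith) (by linarith)
    have h8 : 0 ≤ x ^ 4 * δ0 := by positivity
    have h9 : (2 - x ^ 4) * (1 / 2 - δ0) = 1 - 2 * δ0 - x ^ 4 / 2 + x ^ 4 * δ0 := by ring
    rw [h9] at h2
    have h10 : (1 + C) * z = z + C * z := by ring
    rw [h10] at f9
    linarith

end Pool.Agent.H40.EX
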