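import Pool.Agent.H98.EX.BTargets

/-!
# The exact constant of the copolymer slope: numerical conditions of the base, part 1 (helper40)
-/

set_option autoImplicit false

namespace Pool.Agent.H40.EX

open Pool.Agent.H98.EX

theorem nm2_nx {x z : ℝ} (hz : 0 < z) (hx : x = z ^ 2) :
    1 ≤ 2 * x * (nx0 x : ℝ) ∧ 0 < (nx0 x : ℝ) ∧ Real.log (nx0 x : ℝ) ≤ 1 / z + 1 := by
  have hpow : x ^ (-(1 / 2) : ℝ) = 1 / z := by
    rw [hx, ← Real.rpow_natCast, ← Real.rpow_mul hz.le]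
    norm_num [Real.rpow_neg_one]
  have hq := Real.quadratic_le_exp_of_nonneg (x := 1 / z) (by positivity)
  have h1 : Real.exp (1 / z) ≤ (nx0 x : ℝ) := by
    unfold nx0; rw [hpow]; exact Nat.le_ceil _
  have h2 : (nx0 x : ℝ) ≤ Real.exp (1 / z) + 1 := by
    unfold nx0; rw [hpow]; exact (Nat.ceil_lt_add_one (Real.exp_pos _).le).le
  have h0 : 0 < (nx0 x : ℝ) := lt_of_lt_of_le (Real.exp_pos _) h1
  have hx0 : 0 < x := by rw [hx]; positivity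
  refine ⟨?_, h0, ?_⟩
  · have h3 : (1 / z) ^ 2 / 2 ≤ (nx0 x : ℝ) := by
      have : 0 ≤ 1 / z := by positivity
      linarith
    have h4 : 2 * x * ((1 / z) ^ 2 / 2) = 1 := by
      rw [hx]; field_simp
    calc (1 : ℝ) = 2 * x * ((1 / z) ^ 2 / 2) := h4.symm
      _ ≤ _ := mul_le_mul_of_nonneg_left h3 (by positivity)
  · have h5 : (nx0 x : ℝ) ≤ 2 * Real.exp (1 / z) := by
      have : 1 ≤ Real.exp (1 / z) := Real.one_le_exp (by positivity)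
      linarith
    calc Real.log (nx0 x) ≤ Real.log (2 * Real.exp (1 / z)) := Real.log_le_log h0 h5
      _ = Real.log 2 + 1 / z := by
        rw [Real.log_mul (by norm_num) (Real.exp_pos _).ne', Real.log_exp]
      _ ≤ 1 / z + 1 := by have := Real.log_two_lt_d9; linarith

theorem nm2_te {x α s : ℝ} (hx : 0 < x) (hx1 : x ≤ 1 / 16) (hα : 1 - x ^ 4 ≤ α) (hα1 : α ≤ 1)
    (hs : 0 ≤ s) : (1 + s) / 2 ≤ te α s ∧ te α s ≤ (1 + s) * (1 / 2 + x ^ 4 / 2) := by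
  have hx4 : x ^ 4 ≤ 1 / 16 := by
    calc x ^ 4 ≤ x ^ 1 := pow_le_pow_of_le_one hx.le (by linarith) (by norm_num)
      _ ≤ 1 / 16 := by simpa using hx1
  have hp : 0 < x ^ 4 := by positivity
  have ha : 0 < 1 + α := by linarith
  unfold te
  constructor
  · rw [div_le_div_iff₀ (by norm_num) ha]
    nlinarith
  · rw [div_le_iff₀ ha]
    have : 1 ≤ (1 / 2 + x ^ 4 / 2) * (1 + α) := by nlinarith
    nlinarith

theorem nm2_kap {kp ς ϑ x α τ : ℝ} (hkp : 0 < kp) (hς : 0 < ς) (hςk : ς ≤ kp) (hϑ : 0 < ϑ)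
    (hϑ1 : ϑ ≤ 1 / 64) (hx : 0 < x) (hx1 : x ≤ 1 / 16) (hα : 1 - x ^ 4 ≤ α) (hα1 : α ≤ 1)
    (hτ : τ ≤ x ^ 4) (hsx : ς * x ≤ 1 / 16) (h6 : 136 * x ^ 2 ≤ ϑ * (kp - ς / 4))
    (h7 : 544 * x ^ 3 ≤ ϑ * kp) :
    ϑ / 2 * (kp - ς / 4) * x * (1 - x) ≤ kap ϑ (kp * x) (te α (ς * x)) τ (x ^ 4) ∧
      ϑ / 8 * kp * x ≤ kap ϑ (kp * x) (te α (2 * (ς * x))) τ (x ^ 4) := by
  obtain ⟨ht1, ht2⟩ := nm2_te (s := ς * x) hx hx1 hα hα1 (by positivity)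
  obtain ⟨ht3, ht4⟩ := nm2_te (s := 2 * (ς * x)) hx hx1 hα hα1 (by positivity)
  have hp : 0 < x ^ 4 := by positivity
  have hsx0 : 0 < ς * x := by positivity
  set A := kp - ς / 4 with hA
  have hA0 : 0 < A := by rw [hA]; linarith
  have hAx : x ^ 4 / 2 ≤ A * x := by
    have h1 : 136 * x ^ 2 ≤ A := h6.trans (by nlinarith)
    have h2 : 136 * x ^ 2 * x ≤ A * x := mul_le_mul_of_nonneg_right h1 hx.le
    have h3 : x ^ 4 ≤ x ^ 3 := pow_le_pow_of_le_one hx.le (by linarith) (by norm_num)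
    nlinarith [pow_pos hx 3]
  have hkx : x ^ 4 ≤ kp * x := by
    have h1 : 544 * x ^ 3 ≤ kp := h7.trans (by nlinarith)
    have h2 : 544 * x ^ 3 * x ≤ kp * x := mul_le_mul_of_nonneg_right h1 hx.le
    nlinarith [pow_pos hx 4]
  unfold kap
  constructor
  · have hB : A * x - x ^ 4 / 2 ≤ 1 / 4 + kp * x - te α (ς * x) / 2 := by
      rw [hA]; nlinarith
    have h1 : ϑ * (1 / 2) * (A * x - x ^ 4 / 2) ≤
        ϑ * te α (ς * x) * (1 / 4 + kp * x - te α (ς * x) / 2) := by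
      refine mul_le_mul (mul_le_mul_of_nonneg_left (by linarith) hϑ.le) hB (by linarith) ?_
      have : 0 < te α (ς * x) := by linarith
      positivity
    have h2 : 136 * x ^ 2 * x ^ 2 ≤ ϑ * A * x ^ 2 := mul_le_mul_of_nonneg_right h6 (by positivity)
    nlinarith
  · have hB : kp / 2 * x - x ^ 4 / 2 ≤ 1 / 4 + kp * x - te α (2 * (ς * x)) / 2 := by
      have : ς * x ≤ kp * x := mul_le_mul_of_nonneg_right hςk hx.le
      nlinarith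
    have h1 : ϑ * (1 / 2) * (kp / 2 * x - x ^ 4 / 2) ≤
        ϑ * te α (2 * (ς * x)) * (1 / 4 + kp * x - te α (2 * (ς * x)) / 2) := by
      refine mul_le_mul (mul_le_mul_of_nonneg_left (by linarith) hϑ.le) hB (by linarith) ?_
      have : 0 < te α (2 * (ς * x)) := by linarith
      positivity
    have h2 : 544 * x ^ 3 * x ≤ ϑ * kp * x := mul_le_mul_of_nonneg_right h7 hx.le
    nlinarith

theorem nm2_inv {ϑ A x κ : ℝ} (hϑ : 0 < ϑ) (hA : 0 < A) (hx : 0 < x) (hx1 : x ≤ 1 / 16)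
    (hκ : ϑ / 2 * A * x * (1 - x) ≤ κ) : 0 < κ ∧ 1 / κ ≤ 4 / (ϑ * A) * (1 / x) ∧
      1 / κ ^ 2 ≤ 16 / (ϑ * A) ^ 2 * (1 / x ^ 2) ∧ ϑ * A * x / 4 ≤ κ := by
  have hm : ϑ * A * x / 4 ≤ κ := by
    refine le_trans ?_ hκ
    have : 0 < ϑ * A * x := by positivity
    nlinarith
  have hm0 : 0 < ϑ * A * x / 4 := by positivity
  refine ⟨hm0.trans_le hm, ?_, ?_, hm⟩
  · calc 1 / κ ≤ 1 / (ϑ * A * x / 4) := one_div_le_one_div_of_le hm0 hm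
      _ = _ := by field_simp
  · calc 1 / κ ^ 2 ≤ 1 / (ϑ * A * x / 4) ^ 2 :=
          one_div_le_one_div_of_le (by positivity) (pow_le_pow_left₀ hm0.le hm 2)
      _ = _ := by field_simp; norm_num

theorem nm2_z {x z : ℝ} (hz : 0 < z) (hz1 : z ≤ 1 / 4) (hxz : x = z ^ 2) :
    x ≤ 1 / 16 ∧ x ≤ z ∧ x ^ 2 ≤ z ∧ x ^ 3 ≤ z := by
  have hx : 0 < x := by rw [hxz]; positivity
  have h1 : x ≤ 1 / 16 := by rw [hxz]; nlinarith
  have h2 : x ≤ z := by rw [hxz]; nlinarith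
  have h3 : x ^ 2 ≤ x ^ 1 := pow_le_pow_of_le_one hx.le (by linarith) (by norm_num)
  have h4 : x ^ 3 ≤ x ^ 1 := pow_le_pow_of_le_one hx.le (by linarith) (by norm_num)
  rw [pow_one] at h3 h4
  exact ⟨h1, h2, h3.trans h2, h4.trans h2⟩

theorem nm2_sq {x : ℝ} (hx : 0 ≤ x) (hx1 : x ≤ 1 / 16) : 1 ≤ (1 + 4 * x) * (1 - x) ^ 2 := by
  have h : (1 + 4 * x) * (1 - x) ^ 2 = 1 + x * (2 - 7 * x + 4 * x ^ 2) := by ring
  have h1 : 0 ≤ x * (2 - 7 * x + 4 * x ^ 2) := mul_nonneg hx (by nlinarith)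
  linarith

/-- the constant of the error term -/
noncomputable def nm2C (kp ς ϑ ω : ℝ) (R : ℕ) : ℝ :=
  4 + ϑ ^ 2 / 4 * (kp - ς / 4) ^ 2 / ad ϑ ω * (16 / (ϑ * (kp - ς / 4))) +
  (1 + 8 * ϑ) * (1 + ϑ) ^ 3 * (1 / Real.sqrt 2) * Real.exp (2 * R + 9) *
    (4 / (ϑ * (kp - ς / 4))) +
  (1 + 8 * ϑ) * (1 + ϑ) ^ 3 * (1 / Real.sqrt 2) * (8 * R) *
    (16 * ad ϑ ω / (ϑ * (kp - ς / 4)) ^ 2 + 160 / (ϑ * (kp - ς / 4))) +
  (1 + 8 * ϑ) * (1 + ϑ) ^ 3 * (1 / Real.sqrt 2) * (2 * R * (2 * R * ad ϑ ω + 40)) +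
  80 * (384 / (ς * ϑ ^ 2 * (kp - ς / 4) * kp) + 256 / (ϑ * (kp - ς / 4)) ^ 2)

theorem nm2_gb {kp ς ϑ ω x z δ0 κ κ' ρ' Qv : ℝ} {R n : ℕ} (hkp : 0 < kp) (hς : 0 < ς)
    (hςk : ς ≤ kp) (hϑ : 0 < ϑ) (hω : 0 < ω) (hz : 0 < z) (hz1 : z ≤ 1 / 4) (hxz : x = z ^ 2)
    (hδ : 0 < δ0) (hδ1 : δ0 ≤ 1 / 4) (hκ : ϑ / 2 * (kp - ς / 4) * x * (1 - x) ≤ κ)
    (hκ' : ϑ / 8 * kp * x ≤ κ') (hρ : ς * x / 2 ≤ ρ') (hn : 1 ≤ 2 * x * (n : ℝ))
    (hn0 : 0 < (n : ℝ)) (hL : La ϑ n ≤ 2 / z)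
    (hQ1 : (1 + 8 * ϑ) * (1 + ϑ) ^ 3 * (1 / Real.sqrt 2) *
      (Qv * ad ϑ ω / (ϑ ^ 2 / 4 * (kp - ς / 4) ^ 2)) ≤ 1 - 4 * δ0) :
    GB (x ^ 4) ϑ ω κ κ' ρ' Qv R n ≤ 1 - 4 * δ0 + nm2C kp ς ϑ ω R * z := by
  have hx : 0 < x := by rw [hxz]; positivity
  obtain ⟨hx1, hxz1, hxx, -⟩ := nm2_z hz hz1 hxz
  unfold nm2C GB
  set A := kp - ς / 4 with hA
  have hA0 : 0 < A := by rw [hA]; linarith
  set a := ad ϑ ω with ha
  have ha0 : 0 < a := by rw [ha]; unfold ad; positivity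
  set P := (1 + 8 * ϑ) * (1 + ϑ) ^ 3 * (1 / Real.sqrt 2) with hP
  have hs2 : 0 < Real.sqrt 2 := Real.sqrt_pos.2 (by norm_num)
  have hP0 : 0 < P := by rw [hP]; positivity
  set L := La ϑ n with hLdef
  have hsq : Real.sqrt (x ^ 4 / 2) = x ^ 2 * (1 / Real.sqrt 2) := by
    rw [Real.sqrt_div (by positivity), show x ^ 4 = (x ^ 2) ^ 2 by ring,
      Real.sqrt_sq (by positivity)]
    ring
  have hE : (1 + 8 * ϑ) * (1 + ϑ) ^ 3 * Real.sqrt (x ^ 4 / 2) = P * x ^ 2 := by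
    rw [hsq, hP]; ring
  rw [hE]
  obtain ⟨hκ0, i1, i2, hm⟩ := nm2_inv hϑ hA0 hx hx1 hκ
  have hm0 : 0 < ϑ * A * x / 4 := by positivity
  have hκ'0 : 0 < κ' := lt_of_lt_of_le (by positivity) hκ'
  have hρ0 : 0 < ρ' := lt_of_lt_of_le (by positivity) hρ
  -- first term
  have T1 : P * x ^ 2 * (Qv * (a / κ ^ 2)) ≤ 1 - 4 * δ0 + 4 * x := by
    have h1 : ϑ ^ 2 / 4 * A ^ 2 * x ^ 2 / κ ^ 2 ≤ 1 + 4 * x := by
      rw [div_le_iff₀ (by positivity)]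
      have h2 : (ϑ / 2 * A * x * (1 - x)) ^ 2 ≤ κ ^ 2 :=
        pow_le_pow_left₀ (by have : 0 ≤ 1 - x := by linarith
                             positivity) hκ 2
      have h3 : 1 ≤ (1 + 4 * x) * (1 - x) ^ 2 := nm2_sq hx.le hx1
      calc ϑ ^ 2 / 4 * A ^ 2 * x ^ 2 = ϑ ^ 2 / 4 * A ^ 2 * x ^ 2 * 1 := by ring
        _ ≤ ϑ ^ 2 / 4 * A ^ 2 * x ^ 2 * ((1 + 4 * x) * (1 - x) ^ 2) :=
            mul_le_mul_of_nonneg_left h3 (by positivity)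
        _ = (1 + 4 * x) * (ϑ / 2 * A * x * (1 - x)) ^ 2 := by ring
        _ ≤ (1 + 4 * x) * κ ^ 2 := mul_le_mul_of_nonneg_left h2 (by positivity)
    have h4 : P * x ^ 2 * (Qv * (a / κ ^ 2)) =
        P * (Qv * a / (ϑ ^ 2 / 4 * A ^ 2)) * (ϑ ^ 2 / 4 * A ^ 2 * x ^ 2 / κ ^ 2) := by
      field_simp
    rw [h4]
    calc P * (Qv * a / (ϑ ^ 2 / 4 * A ^ 2)) * (ϑ ^ 2 / 4 * A ^ 2 * x ^ 2 / κ ^ 2) ≤
        (1 - 4 * δ0) * (1 + 4 * x) := mul_le_mul hQ1 h1 (by positivity) (by linarith)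
      _ ≤ 1 - 4 * δ0 + 4 * x := by
          have h7 : 0 ≤ δ0 * x := by positivity
          have h8 : (1 - 4 * δ0) * (1 + 4 * x) = 1 - 4 * δ0 + 4 * x - 16 * (δ0 * x) := by ring
          rw [h8]
          linarith
  have hPQ : P * Qv ≤ ϑ ^ 2 / 4 * A ^ 2 / a := by
    rw [le_div_iff₀ ha0]
    have h5 : P * (Qv * a / (ϑ ^ 2 / 4 * A ^ 2)) ≤ 1 := by linarith
    have h6 : P * (Qv * a / (ϑ ^ 2 / 4 * A ^ 2)) = P * Qv * a / (ϑ ^ 2 / 4 * A ^ 2) := by ring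
    rw [h6, div_le_one (by positivity)] at h5
    exact h5
  have hxk : x ^ 2 * (1 / κ) ≤ 4 / (ϑ * A) * x := by
    calc x ^ 2 * (1 / κ) ≤ x ^ 2 * (4 / (ϑ * A) * (1 / x)) :=
          mul_le_mul_of_nonneg_left i1 (by positivity)
      _ = _ := by field_simp
  have hxk2 : x ^ 2 * (1 / κ ^ 2) ≤ 16 / (ϑ * A) ^ 2 := by
    calc x ^ 2 * (1 / κ ^ 2) ≤ x ^ 2 * (16 / (ϑ * A) ^ 2 * (1 / x ^ 2)) :=
          mul_le_mul_of_nonneg_left i2 (by positivity)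
      _ = _ := by field_simp
  have T2 : P * x ^ 2 * (Qv * (4 / κ)) ≤ ϑ ^ 2 / 4 * A ^ 2 / a * (16 / (ϑ * A)) * z := by
    calc P * x ^ 2 * (Qv * (4 / κ)) = P * Qv * (4 * (x ^ 2 * (1 / κ))) := by ring
      _ ≤ ϑ ^ 2 / 4 * A ^ 2 / a * (4 * (4 / (ϑ * A) * x)) :=
          mul_le_mul hPQ (by linarith) (by positivity) (by positivity)
      _ = ϑ ^ 2 / 4 * A ^ 2 / a * (16 / (ϑ * A)) * x := by ring
      _ ≤ _ := mul_le_mul_of_nonneg_left hxz1 (by positivity)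
  have T3 : P * x ^ 2 * (Real.exp (2 * R + 9) / κ) ≤
      P * Real.exp (2 * R + 9) * (4 / (ϑ * A)) * z := by
    calc P * x ^ 2 * (Real.exp (2 * R + 9) / κ) =
          P * Real.exp (2 * R + 9) * (x ^ 2 * (1 / κ)) := by ring
      _ ≤ P * Real.exp (2 * R + 9) * (4 / (ϑ * A) * x) :=
          mul_le_mul_of_nonneg_left hxk (by positivity)
      _ = P * Real.exp (2 * R + 9) * (4 / (ϑ * A)) * x := by ring
      _ ≤ _ := mul_le_mul_of_nonneg_left hxz1 (by positivity)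
  have T4 : P * x ^ 2 * (4 * R / n * (a / κ ^ 2 + 40 / κ)) ≤
      P * (8 * R) * (16 * a / (ϑ * A) ^ 2 + 160 / (ϑ * A)) * z := by
    have h1 : 1 / (n : ℝ) ≤ 2 * x := by rw [div_le_iff₀ hn0]; exact hn
    have h2 : a * (x ^ 2 * (1 / κ ^ 2)) + 40 * (x ^ 2 * (1 / κ)) ≤
        16 * a / (ϑ * A) ^ 2 + 160 / (ϑ * A) := by
      have h3 : a * (x ^ 2 * (1 / κ ^ 2)) ≤ a * (16 / (ϑ * A) ^ 2) :=
        mul_le_mul_of_nonneg_left hxk2 ha0.le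
      have h4 : 4 / (ϑ * A) * x ≤ 4 / (ϑ * A) * 1 :=
        mul_le_mul_of_nonneg_left (by linarith) (by positivity)
      have h5 : a * (16 / (ϑ * A) ^ 2) = 16 * a / (ϑ * A) ^ 2 := by ring
      have h6 : 160 / (ϑ * A) = 40 * (4 / (ϑ * A) * 1) := by ring
      rw [← h5, h6]
      linarith
    calc P * x ^ 2 * (4 * R / n * (a / κ ^ 2 + 40 / κ)) =
          P * (4 * R * (1 / n)) * (a * (x ^ 2 * (1 / κ ^ 2)) + 40 * (x ^ 2 * (1 / κ))) := by ring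
      _ ≤ P * (4 * R * (2 * x)) * (16 * a / (ϑ * A) ^ 2 + 160 / (ϑ * A)) := by
          refine mul_le_mul ?_ h2 (by positivity) (by positivity)
          exact mul_le_mul_of_nonneg_left (mul_le_mul_of_nonneg_left h1 (by positivity)) hP0.le
      _ = P * (8 * R) * (16 * a / (ϑ * A) ^ 2 + 160 / (ϑ * A)) * x := by ring
      _ ≤ _ := mul_le_mul_of_nonneg_left hxz1 (by positivity)
  have T5 : P * x ^ 2 * (2 * R * (2 * R * a + 40)) ≤ P * (2 * R * (2 * R * a + 40)) * z := by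
    calc P * x ^ 2 * (2 * R * (2 * R * a + 40)) = P * (2 * R * (2 * R * a + 40)) * x ^ 2 := by
          ring
      _ ≤ _ := mul_le_mul_of_nonneg_left hxx (by positivity)
  have T6 : 40 * x ^ 4 * L * (6 / (ρ' * κ * κ') + 16 / κ ^ 2) ≤
      80 * (384 / (ς * ϑ ^ 2 * A * kp) + 256 / (ϑ * A) ^ 2) * z := by
    have h1 : 6 / (ρ' * κ * κ') ≤ 384 / (ς * ϑ ^ 2 * A * kp) * (1 / x ^ 3) := by
      have h2 : ς * x / 2 * (ϑ * A * x / 4) * (ϑ / 8 * kp * x) ≤ ρ' * κ * κ' :=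
        mul_le_mul (mul_le_mul hρ hm hm0.le hρ0.le) hκ' (by positivity) (by positivity)
      calc 6 / (ρ' * κ * κ') ≤ 6 / (ς * x / 2 * (ϑ * A * x / 4) * (ϑ / 8 * kp * x)) :=
            div_le_div_of_nonneg_left (by norm_num) (by positivity) h2
        _ = _ := by field_simp; norm_num
    have h3 : 16 / κ ^ 2 ≤ 256 / (ϑ * A) ^ 2 * (1 / x ^ 3) := by
      calc 16 / κ ^ 2 = 16 * (1 / κ ^ 2) := by ring
        _ ≤ 16 * (16 / (ϑ * A) ^ 2 * (1 / x ^ 2)) := mul_le_mul_of_nonneg_left i2 (by norm_num)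
        _ = 256 / (ϑ * A) ^ 2 * (1 / x ^ 2) := by ring
        _ ≤ 256 / (ϑ * A) ^ 2 * (1 / x ^ 3) := by
            refine mul_le_mul_of_nonneg_left ?_ (by positivity)
            refine one_div_le_one_div_of_le (by positivity) ?_
            exact pow_le_pow_of_le_one hx.le (by linarith) (by norm_num)
    calc 40 * x ^ 4 * L * (6 / (ρ' * κ * κ') + 16 / κ ^ 2) ≤
          40 * x ^ 4 * (2 / z) * (384 / (ς * ϑ ^ 2 * A * kp) * (1 / x ^ 3) +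
            256 / (ϑ * A) ^ 2 * (1 / x ^ 3)) := by
          refine mul_le_mul (mul_le_mul_of_nonneg_left hL (by positivity)) (add_le_add h1 h3)
            (by positivity) (by positivity)
      _ = 80 * (384 / (ς * ϑ ^ 2 * A * kp) + 256 / (ϑ * A) ^ 2) * (x ^ 4 * (1 / x ^ 3) * (1 / z)) := by
          ring
      _ = _ := by
          congr 1
          rw [hxz]; field_simp
  have hx4 : 4 * x ≤ 4 * z := by linarith
  calc P * x ^ 2 * (Qv * (a / κ ^ 2 + 4 / κ) + Real.exp (2 * R + 9) / κ +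
        4 * R / n * (a / κ ^ 2 + 40 / κ) + 2 * R * (2 * R * a + 40)) +
        40 * x ^ 4 * L * (6 / (ρ' * κ * κ') + 16 / κ ^ 2) =
      P * x ^ 2 * (Qv * (a / κ ^ 2)) + P * x ^ 2 * (Qv * (4 / κ)) +
        P * x ^ 2 * (Real.exp (2 * R + 9) / κ) +
        P * x ^ 2 * (4 * R / n * (a / κ ^ 2 + 40 / κ)) +
        P * x ^ 2 * (2 * R * (2 * R * a + 40)) +
        40 * x ^ 4 * L * (6 / (ρ' * κ * κ') + 16 / κ ^ 2) := by ring
    _ ≤ _ := by linarith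

end Pool.Agent.H40.EX
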